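import Pool.Agent.N658.FF.Stm3
import Pool.Agent.N281.FF.Few

/-! # The number of low energy states is polynomial (job D10 of the project FF2) -/

set_option autoImplicit false

noncomputable section

namespace Pool.Agent.N478.FF

open Pool.Agent.TH235.PP Pool.Agent.Results.MP_953b23_mp.ThermalCriterion Pool.Agent.N658.FF

open scoped BigOperators InnerProductSpace Matrix Classical ComplexOrder

/-- The conclusion of the two-scale statement. -/
def TwoP (g ν : ℕ) (Δ Γ C ρ : ℝ) : Prop :=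
  ∀ (E : Type) [NormedAddCommGroup E] [InnerProductSpace ℂ E]
  [FiniteDimensional ℂ E] (T ι κ : Type) [Fintype T] [DecidableEq T] [Fintype ι] [DecidableEq ι]
  [Fintype κ] [DecidableEq κ]
  (V : T → Submodule ℂ E) (adj : T → T → Prop), Loc V adj g → Gap V Δ → Grow adj Γ →
  ∀ (X : ι → Finset T) (near : ι → ι → Prop) (K M : ℕ), (∀ t, (X t).card ≤ M) →
  (∀ x, ∃ t, x ∈ X t) →
  (∀ t j, near t j → near j t) → (∀ t, (Finset.univ.filter fun j => near t j).card ≤ ν) →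
  (∀ t j, t ≠ j → ¬ near t j →
    Disjoint (Nb adj (2 * K * (g + 1) + 1) (X t)) (Nb adj (2 * K * (g + 1) + 1) (X j))) →
  ∀ (Y : κ → Finset T) (near' : κ → κ → Prop) (K' M' : ℕ), (∀ t, (Y t).card ≤ M') →
  (∀ x, ∃ t, x ∈ Y t) → (∀ t j, t ≠ j → Disjoint (Y t) (Y j)) →
  (∀ t j, near' t j → near' j t) → (∀ t, (Finset.univ.filter fun j => near' t j).card ≤ ν) →
  (∀ t j, t ≠ j → ¬ near' t j →
    Disjoint (Nb adj (2 * K' * (g + 1) + 1) (Y t)) (Nb adj (2 * K' * (g + 1) + 1) (Y j))) →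
  ∀ (S : Submodule ℂ E) (θ : ℝ), (∀ u ∈ S, ∑ x, eps V x u ≤ θ * ‖u‖ ^ 2) → ∀ n n' : ℕ,
  C * θ + Fintype.card ι * (C * M * ρ ^ K) < n →
  C * n + (n * M : ℕ) * (C * M' * ρ ^ K') < n' →
  ∀ δ : ℕ, (∀ F : Finset κ, F.card < n' →
    Module.finrank ℂ (G V (Finset.univ \ F.biUnion Y)) ≤ δ) →
  Module.finrank ℂ S ≤ (Fintype.card ι + 1) ^ n * ((n * M + 1) ^ n' * δ)

theorem two_iff (h : StmTwo) (g ν : ℕ) (Δ Γ : ℝ) (hΔ : 0 < Δ) :
    ∃ C ρ : ℝ, 1 ≤ C ∧ 0 ≤ ρ ∧ ρ < 1 ∧ TwoP g ν Δ Γ C ρ := h g ν Δ Γ hΔ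

theorem sub_Nb {T : Type} [Fintype T] [DecidableEq T] (adj : T → T → Prop) (j : ℕ)
    (S : Finset T) : S ⊆ Nb adj j S := by
  induction j with
  | zero => exact Finset.Subset.refl _
  | succ j ih => exact ih.trans Finset.subset_union_left

theorem Nb_succ_sub {T : Type} [Fintype T] [DecidableEq T] (adj : T → T → Prop) (j : ℕ)
    (S : Finset T) : Nb adj j S ⊆ Nb adj (j + 1) S := Finset.subset_union_left

theorem sub_hole {T ι : Type} [Fintype T] [DecidableEq T] [Fintype ι] [DecidableEq ι]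
    (adj : T → T → Prop) (near : ι → ι → Prop) (X : ι → Finset T) (r c : ℕ) (t : ι) :
    X t ⊆ hole adj near X r c {t} := by
  intro x hx
  unfold hole
  rw [Finset.mem_biUnion]
  refine ⟨t, ?_, sub_Nb adj _ _ hx⟩
  rw [Finset.mem_biUnion]
  exact ⟨t, Finset.mem_singleton_self t, sub_Nb near _ _ (Finset.mem_singleton_self t)⟩

/-- The blocks contain at most `W ^ 2` terms. -/
theorem card_block {L W : ℕ} [NeZero L] {X : Finset (Site L)} {c : Site L}
    (h : ∀ u ∈ X, ∃ y : Fin W × Fin W, u = sh c y) : X.card ≤ W ^ 2 := by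
  classical
  have h1 : X ⊆ (Finset.univ : Finset (Fin W × Fin W)).image (fun y => sh c y) := by
    intro u hu
    obtain ⟨y, hy⟩ := h u hu
    exact Finset.mem_image.2 ⟨y, Finset.mem_univ _, hy.symm⟩
  refine (Finset.card_le_card h1).trans (Finset.card_image_le.trans ?_)
  rw [Finset.card_univ, Fintype.card_prod, Fintype.card_fin, sq]

/-- The case of few low energy levels, one torus. -/
theorem few2_one (h2 : StmLoc) (h3 : StmGapT) (h4 : StmEn) (h5 : StmGeo)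
    (h6 : StmFinr) (h7 : StmGrow) {d R L : ℕ} [NeZero L] {h : BoxOp d R} (hR : 1 ≤ R)
    (hh : h.PosSemidef)
    {Δ A₀ C ρ : ℝ} {a w₀ : ℕ} (hΔ : 0 < Δ) (hA : 0 ≤ A₀)
    (hT : TwoP (4 * R ^ 2) 9 (Δ / (nJ h + 1)) (4 * (R : ℝ) ^ 2) C ρ)
    (hC : 1 ≤ C) (hρ : 0 ≤ ρ) (hgap : GapAll h L Δ)
    (hdeg : ∀ (w : ℕ) (C : Finset (Site L)), w₀ ≤ w → w ≤ L →
      (Module.finrank ℂ (offSpace h L w C) : ℝ) ≤ Real.exp (A₀ * C.card * (w : ℝ) ^ a))
    {K K' s s' : ℕ} (hs : s = (2 * (2 * K * (4 * R ^ 2 + 1) + 1) + 2) * R) (hsL : 60 * s ≤ L)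
    (hs' : s' = (2 * (2 * K' * (4 * R ^ 2 + 1) + 1) + 2) * R) (hsL' : 60 * s' ≤ L)
    (hw : w₀ ≤ 60 * s')
    (hH : (ham h L).IsHermitian) (m n n' : ℕ)
    (hcond : C * (m / Δ) + (L : ℝ) ^ 2 * (C * ((60 * s : ℕ) : ℝ) ^ 2 * ρ ^ K) < n)
    (hcond' : C * n + (n * ((60 * s : ℕ) : ℝ) ^ 2) * (C * ((60 * s' : ℕ) : ℝ) ^ 2 * ρ ^ K')
      < n') :
    (numStates hH m : ℝ) ≤ ((L : ℝ) ^ 2 + 1) ^ n * ((n * ((60 * s : ℕ) : ℝ) ^ 2 + 1) ^ n' *
      Real.exp (A₀ * n' * ((60 * s' : ℕ) : ℝ) ^ a)) := by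
  have hRL : R ≤ L := by
    have : R ≤ s := by rw [hs]; exact Nat.le_mul_of_pos_left _ (by omega)
    omega
  obtain ⟨ι, hι1, hι2, X, near, cor, g1, g2, g3, g4, g5, g6, g7⟩ :=
    h5 R L s (2 * K * (4 * R ^ 2 + 1) + 1) hR (by rw [hs]) hsL
  obtain ⟨κ, hκ1, hκ2, Y, near', cor', k1, k2, k3, k4, k5, k6, k7⟩ :=
    h5 R L s' (2 * K' * (4 * R ^ 2 + 1) + 1) hR (by rw [hs']) hsL'
  obtain ⟨S, hS1, hS2⟩ := Pool.Agent.N281.FF.low hH (m : ℝ)
  have hθ : ∀ u ∈ S, ∑ x, eps (Vt h L) x u ≤ (m : ℝ) / Δ * ‖u‖ ^ 2 := by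
    intro u hu
    have e1 := h4 d R L hR hRL h hh Δ hΔ hgap (Site L) (fun x => {x})
      (fun t j htj => Finset.disjoint_singleton.2 htj) u.ofLp
    have e2 : ∀ x, eps (Vt h L) x u = ‖(WithLp.toLp 2 u.ofLp : EuclideanSpace ℂ (Site L → Fin d)) -
      pr (G (Vt h L) {x}) (WithLp.toLp 2 u.ofLp)‖ ^ 2 := by
      intro x
      have e3 : G (Vt h L) {x} = Vt h L x := by
        unfold G
        simp
      rw [e3]
      rfl
    rw [Finset.sum_congr rfl fun x _ => e2 x]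
    refine e1.trans ?_
    rw [div_mul_eq_mul_div]
    exact div_le_div_of_nonneg_right (hS2 u hu) hΔ.le
  have hJ : 0 < nJ h + 1 := by have := nJ_nonneg h; linarith
  have hXc : ∀ t, (X t).card ≤ (60 * s) ^ 2 := fun t =>
    card_block fun u hu => g7 t u (sub_hole _ _ _ _ _ t hu)
  have hYc : ∀ t, (Y t).card ≤ (60 * s') ^ 2 := fun t =>
    card_block fun u hu => k7 t u (sub_hole _ _ _ _ _ t hu)
  have hab := hT (EuclideanSpace ℂ (Site L → Fin d)) (Site L) ι κ (Vt h L) (adjR R L)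
    (h2 d R L hR hRL h hh.isHermitian) (h3 d R L hR hRL h hh Δ hΔ.le hgap) (h7 R L hR)
    X near K ((60 * s) ^ 2) hXc g2 g4 g5
    (fun t j htj hn => (g6 t j htj hn).mono_right (Nb_succ_sub _ _ _))
    Y near' K' ((60 * s') ^ 2) hYc k2 k3 k4 k5
    (fun t j htj hn => (k6 t j htj hn).mono_right (Nb_succ_sub _ _ _))
    S (m / Δ) hθ n n' (by
      refine lt_of_le_of_lt ?_ hcond
      have e1 : (Fintype.card ι : ℝ) ≤ (L : ℝ) ^ 2 := by exact_mod_cast g1
      have e2 : (0 : ℝ) ≤ C * ((60 * s : ℕ) : ℝ) ^ 2 * ρ ^ K := by positivity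
      have e3 := mul_le_mul_of_nonneg_right e1 e2
      push_cast at e3 ⊢
      linarith) (by
      refine lt_of_le_of_lt (le_of_eq ?_) hcond'
      push_cast
      ring) ⌊Real.exp (A₀ * n' * ((60 * s' : ℕ) : ℝ) ^ a)⌋₊ (by
      intro F hF
      have e1 := h6 d R L hR h (60 * s') (F.image cor') (Finset.univ \ F.biUnion Y) (by
        intro u hu
        rw [Finset.mem_sdiff]
        refine ⟨Finset.mem_univ _, fun hmem => ?_⟩
        rw [Finset.mem_biUnion] at hmem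
        obtain ⟨f, hf, huf⟩ := hmem
        obtain ⟨y, hy⟩ := k7 f u (sub_hole _ _ _ _ _ f huf)
        exact hu (cor' f) (Finset.mem_image_of_mem _ hf) y hy)
      refine e1.trans (Nat.le_floor ?_)
      refine (hdeg (60 * s') (F.image cor') hw hsL').trans ?_
      apply Real.exp_le_exp.2
      apply mul_le_mul_of_nonneg_right _ (by positivity)
      apply mul_le_mul_of_nonneg_left _ hA
      have e3 : (F.image cor').card ≤ n' := Finset.card_image_le.trans hF.le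
      exact_mod_cast e3)
  rw [hS1] at hab
  have hab' : (numStates hH m : ℝ) ≤ ((Fintype.card ι : ℝ) + 1) ^ n *
      ((n * ((60 * s : ℕ) : ℝ) ^ 2 + 1) ^ n' *
        (⌊Real.exp (A₀ * n' * ((60 * s' : ℕ) : ℝ) ^ a)⌋₊ : ℝ)) := by
    exact_mod_cast hab
  refine hab'.trans ?_
  have e1 : (Fintype.card ι : ℝ) ≤ (L : ℝ) ^ 2 := by exact_mod_cast g1
  have e2 : (⌊Real.exp (A₀ * n' * ((60 * s' : ℕ) : ℝ) ^ a)⌋₊ : ℝ) ≤
      Real.exp (A₀ * n' * ((60 * s' : ℕ) : ℝ) ^ a) := Nat.floor_le (Real.exp_pos _).le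
  apply mul_le_mul
  · exact pow_le_pow_left₀ (by positivity) (by linarith) n
  · exact mul_le_mul_of_nonneg_left e2 (by positivity)
  · positivity
  · positivity

/-- Powers of logarithms are small. -/
theorem asy (c : ℝ) (hc : 0 ≤ c) (b : ℕ) :
    ∃ x₀ : ℝ, ∀ x : ℝ, x₀ ≤ x → (c * (Real.log x + 1)) ^ b ≤ x := by
  have h1 : (fun x : ℝ => Real.log x ^ b) =o[Filter.atTop] (id : ℝ → ℝ) :=
    Real.isLittleO_pow_log_id_atTop
  have hcb : (0 : ℝ) ≤ (2 * c) ^ b := by positivity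
  have h2 := h1.def (show (0 : ℝ) < 1 / ((2 * c) ^ b + 1) by positivity)
  obtain ⟨x₀, hx₀⟩ := Filter.eventually_atTop.1 h2
  refine ⟨max (Real.exp 1) x₀, fun x hx => ?_⟩
  have hx1 : Real.exp 1 ≤ x := (le_max_left _ _).trans hx
  have hx0 : 0 < x := (Real.exp_pos 1).trans_le hx1
  have hlog : 1 ≤ Real.log x := (Real.le_log_iff_exp_le hx0).2 hx1
  have h3 := hx₀ x ((le_max_right _ _).trans hx)
  rw [Real.norm_of_nonneg (by positivity), id, Real.norm_of_nonneg hx0.le] at h3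
  have h4 : (c * (Real.log x + 1)) ^ b ≤ (2 * c * Real.log x) ^ b := by
    apply pow_le_pow_left₀ (by positivity)
    nlinarith only [hlog, hc, mul_nonneg hc (by linarith : (0 : ℝ) ≤ Real.log x - 1)]
  refine h4.trans ?_
  rw [mul_pow]
  refine (mul_le_mul_of_nonneg_left h3 hcb).trans ?_
  rw [← mul_assoc, mul_one_div]
  calc (2 * c) ^ b / ((2 * c) ^ b + 1) * x ≤ 1 * x := by
        apply mul_le_mul_of_nonneg_right _ hx0.le
        rw [div_le_one (by positivity)]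
        linarith
    _ = x := one_mul x

/-- The size of the blocks. -/
theorem block_bound {R g k : ℕ} {q y : ℝ} (hk : (k : ℝ) ≤ q * y) (hy : 1 ≤ y) :
    ((60 * ((2 * (2 * k * (g + 1) + 1) + 2) * R) : ℕ) : ℝ) ≤
      240 * R * (q * (g + 1) + 1) * y := by
  push_cast
  have hR : (0 : ℝ) ≤ R := Nat.cast_nonneg R
  have hg : (0 : ℝ) ≤ g := Nat.cast_nonneg g
  have e1 : (k : ℝ) * (g + 1) ≤ q * y * (g + 1) := mul_le_mul_of_nonneg_right hk (by linarith)
  have e2 : 4 * ((k : ℝ) * (g + 1)) + 4 ≤ 4 * (q * (g + 1) + 1) * y := by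
    nlinarith only [e1, hy]
  calc 60 * ((2 * (2 * (k : ℝ) * (g + 1) + 1) + 2) * R)
        = 60 * R * (4 * ((k : ℝ) * (g + 1)) + 4) := by ring
    _ ≤ 60 * R * (4 * (q * (g + 1) + 1) * y) :=
        mul_le_mul_of_nonneg_left e2 (by positivity)
    _ = _ := by ring

theorem few2 (h1 : StmTwo) (h2 : StmLoc) (h3 : StmGapT) (h4 : StmEn) (h5 : StmGeo)
    (h6 : StmFinr) (h7 : StmGrow) : StmFew2 := by
  intro d R h hd hR hh Δ A₀ a w₀ hΔ hA ⟨L₀, hL₀⟩
  have hJ : 0 < nJ h + 1 := by have := nJ_nonneg h; linarith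
  have hD0 : 0 < Δ / (nJ h + 1) := div_pos hΔ hJ
  obtain ⟨C, ρ, hC, hρ0, hρ1, hT⟩ := two_iff h1 (4 * R ^ 2) 9 (Δ / (nJ h + 1))
    (4 * (R : ℝ) ^ 2) hD0
  obtain ⟨g, hg⟩ : ∃ g : ℕ, g = 4 * R ^ 2 := ⟨_, rfl⟩
  obtain ⟨z, hz⟩ : ∃ z : ℝ, z = max ρ (1 / 2) := ⟨_, rfl⟩
  have hz0 : 0 < z := by rw [hz]; exact lt_max_of_lt_right (by norm_num)
  have hz1 : z < 1 := by rw [hz]; exact max_lt hρ1 (by norm_num)
  have hρz : ρ ≤ z := by rw [hz]; exact le_max_left _ _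
  have hlz : Real.log z < 0 := Real.log_neg hz0 hz1
  obtain ⟨q, hq⟩ : ∃ q : ℝ, q = 3 / (-Real.log z) := ⟨_, rfl⟩
  have hq0 : 0 < q := by rw [hq]; exact div_pos (by norm_num) (by linarith)
  have hqz : q * Real.log z = -3 := by
    have hne : Real.log z ≠ 0 := hlz.ne
    rw [hq, div_mul_eq_mul_div, div_eq_iff (neg_ne_zero.2 hne)]
    ring
  have hR0 : (1 : ℝ) ≤ R := by exact_mod_cast hR
  have hg0 : (0 : ℝ) ≤ g := Nat.cast_nonneg g
  have hw0 : (0 : ℝ) ≤ w₀ := Nat.cast_nonneg w₀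
  obtain ⟨cW, hcW⟩ : ∃ cW : ℝ, cW = 240 * R * ((q + 1) * (g + 1) + 1) := ⟨_, rfl⟩
  have hcW1 : 1 ≤ cW := by
    rw [hcW]
    have e1 : (1 : ℝ) ≤ (q + 1) * (g + 1) + 1 := by
      have : 0 ≤ (q + 1) * ((g : ℝ) + 1) := by positivity
      linarith
    have e2 : (1 : ℝ) ≤ 240 * R := by linarith
    exact one_le_mul_of_one_le_of_one_le e2 e1
  obtain ⟨cV, hcV⟩ : ∃ cV : ℝ, cV = 240 * R * ((q + 1 + w₀) * (g + 1) + 1) := ⟨_, rfl⟩
  have hcV1 : 1 ≤ cV := by
    rw [hcV]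
    have e1 : (1 : ℝ) ≤ (q + 1 + w₀) * (g + 1) + 1 := by
      have : 0 ≤ (q + 1 + w₀) * ((g : ℝ) + 1) := by positivity
      linarith
    have e2 : (1 : ℝ) ≤ 240 * R := by linarith
    exact one_le_mul_of_one_le_of_one_le e2 e1
  obtain ⟨c₃, hc₃⟩ : ∃ c₃ : ℝ, c₃ = C / Δ + 3 := ⟨_, rfl⟩
  have hCΔ : 0 ≤ C / Δ := div_nonneg (by linarith) hΔ.le
  have hc₃1 : 1 ≤ c₃ := by rw [hc₃]; linarith
  obtain ⟨x₁, hx₁⟩ := asy ((C + c₃) * cW) (by positivity) 2
  obtain ⟨x₂, hx₂⟩ := asy (C * cW * cV) (by positivity) 2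
  obtain ⟨x₃, hx₃⟩ := asy cV (by positivity) a
  have hld : 0 ≤ Real.log d := Real.log_nonneg (by exact_mod_cast hd)
  obtain ⟨B, hB⟩ : ∃ B : ℝ, B = 3 * c₃ + (4 + A₀) * ((C + 3) * c₃) := ⟨_, rfl⟩
  have hB0 : 0 < B := by rw [hB]; positivity
  refine ⟨Real.log d + B, max (max L₀ 3) (max ⌈x₁⌉₊ (max ⌈Real.exp x₂⌉₊ ⌈Real.exp x₃⌉₊)),
    by linarith, ?_⟩
  intro L _ hL hH m
  have hLL₀ : L₀ ≤ L := (le_max_left _ _).trans ((le_max_left _ _).trans hL)
  have hL3 : 3 ≤ L := (le_max_right _ _).trans ((le_max_left _ _).trans hL)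
  have hLr := (le_max_right _ _).trans hL
  have hLx₁ : x₁ ≤ L := (Nat.le_ceil _).trans
    (by exact_mod_cast (le_max_left _ _).trans hLr)
  have hLx₂ : Real.exp x₂ ≤ L := (Nat.le_ceil _).trans
    (by exact_mod_cast (le_max_left _ _).trans ((le_max_right _ _).trans hLr))
  have hLx₃ : Real.exp x₃ ≤ L := (Nat.le_ceil _).trans
    (by exact_mod_cast (le_max_right _ _).trans ((le_max_right _ _).trans hLr))
  have hL3' : (3 : ℝ) ≤ L := by exact_mod_cast hL3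
  have hLpos : (0 : ℝ) < L := by linarith
  obtain ⟨l, hl⟩ : ∃ l : ℝ, l = Real.log L := ⟨_, rfl⟩
  have hl1 : 1 ≤ l := by
    rw [hl, Real.le_log_iff_exp_le hLpos]
    linarith [Real.exp_one_lt_d9]
  have hexpl : Real.exp l = L := by rw [hl, Real.exp_log hLpos]
  have hlL : l ≤ L := by rw [← hexpl]; linarith [Real.add_one_le_exp l]
  have hxl₂ : x₂ ≤ l := by rw [hl, Real.le_log_iff_exp_le hLpos]; exact hLx₂
  have hxl₃ : x₃ ≤ l := by rw [hl, Real.le_log_iff_exp_le hLpos]; exact hLx₃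
  have hy₁ := hx₁ L hLx₁
  have hy₂ := hx₂ l hxl₂
  have hy₃ := hx₃ l hxl₃
  rw [← hl] at hy₁ ⊢
  have hm0 : (0 : ℝ) ≤ m := Nat.cast_nonneg m
  obtain ⟨t, ht⟩ : ∃ t : ℝ, t = Real.log l := ⟨_, rfl⟩
  have ht0 : 0 ≤ t := by rw [ht]; exact Real.log_nonneg hl1
  have hexpt : Real.exp t = l := by rw [ht, Real.exp_log (by linarith)]
  rw [← ht] at hy₂ hy₃
  have hzpow : ∀ (k : ℕ) (y : ℝ), q * y ≤ k → Real.exp y ^ 3 * z ^ k ≤ 1 := by
    intro k y hk
    have e1 : z ^ k = Real.exp (k * Real.log z) := by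
      rw [← Real.log_pow, Real.exp_log (pow_pos hz0 k)]
    have e2 : Real.exp y ^ 3 = Real.exp (3 * y) := by
      rw [← Real.exp_nat_mul]
      norm_num
    rw [e1, e2, ← Real.exp_add]
    apply Real.exp_le_one_iff.2
    have e3 : (k : ℝ) * Real.log z ≤ q * y * Real.log z := mul_le_mul_of_nonpos_right hk hlz.le
    have e4 : q * y * Real.log z = -3 * y := by rw [mul_right_comm, hqz]
    linarith
  rcases le_or_gt (m : ℝ) ((L : ℝ) ^ 2) with hmL | hmL
  · -- few low energy levels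
    -- the first scale
    obtain ⟨k, hk⟩ : ∃ k : ℕ, k = ⌈q * l⌉₊ := ⟨_, rfl⟩
    have hkl : q * l ≤ k := by rw [hk]; exact Nat.le_ceil _
    have hku : (k : ℝ) ≤ (q + 1) * l := by
      have : (k : ℝ) ≤ q * l + 1 := by
        rw [hk]; exact (Nat.ceil_lt_add_one (by positivity)).le
      linarith
    obtain ⟨s, hs⟩ : ∃ s : ℕ, s = (2 * (2 * k * (4 * R ^ 2 + 1) + 1) + 2) * R := ⟨_, rfl⟩
    have hzk : (L : ℝ) ^ 3 * z ^ k ≤ 1 := by rw [← hexpl]; exact hzpow k l hkl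
    obtain ⟨W, hW⟩ : ∃ W : ℝ, W = ((60 * s : ℕ) : ℝ) := ⟨_, rfl⟩
    have hWl : W ≤ cW * l := by
      rw [hW, hs, hcW, hg]
      exact block_bound hku hl1
    have hW0 : 0 ≤ W := by rw [hW]; positivity
    -- the second scale
    obtain ⟨k', hk'⟩ : ∃ k' : ℕ, k' = ⌈q * t⌉₊ + w₀ := ⟨_, rfl⟩
    have hkl' : q * t ≤ k' := by
      rw [hk']; push_cast
      linarith [Nat.le_ceil (q * t)]
    have hku' : (k' : ℝ) ≤ (q + 1 + w₀) * (t + 1) := by
      have : (k' : ℝ) ≤ q * t + 1 + w₀ := by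
        rw [hk']; push_cast
        linarith [(Nat.ceil_lt_add_one (show 0 ≤ q * t by positivity)).le]
      nlinarith only [this, mul_nonneg hw0 ht0, hq0, ht0]
    obtain ⟨s', hs'⟩ : ∃ s' : ℕ, s' = (2 * (2 * k' * (4 * R ^ 2 + 1) + 1) + 2) * R := ⟨_, rfl⟩
    have hzk' : l ^ 3 * z ^ k' ≤ 1 := by
      have := hzpow k' t hkl'
      rwa [hexpt] at this
    obtain ⟨W', hW'⟩ : ∃ W' : ℝ, W' = ((60 * s' : ℕ) : ℝ) := ⟨_, rfl⟩
    have hWl' : W' ≤ cV * (t + 1) := by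
      rw [hW', hs', hcV, hg]
      exact block_bound hku' (by linarith)
    have hW0' : 0 ≤ W' := by rw [hW']; positivity
    have hw₀ : w₀ ≤ 60 * s' := by
      have e1 : k' ≤ s' := by
        rw [hs']
        have : k' ≤ k' * (4 * R ^ 2 + 1) := Nat.le_mul_of_pos_right _ (by positivity)
        calc k' ≤ 2 * (2 * k' * (4 * R ^ 2 + 1) + 1) + 2 := by nlinarith only [this]
          _ ≤ _ := Nat.le_mul_of_pos_right _ hR
      omega
    -- consequences of the largeness of `L`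
    have hCc : (1 : ℝ) ≤ C + c₃ := by linarith
    have hcl : 1 ≤ cW * l := one_le_mul_of_one_le_of_one_le hcW1 hl1
    have hbig : (C + c₃) * (cW * l) ^ 2 ≤ L := by
      refine le_trans ?_ hy₁
      have e1 : ((C + c₃) * cW * (l + 1)) ^ 2 = (C + c₃) ^ 2 * (cW * (l + 1)) ^ 2 := by ring
      rw [e1]
      apply mul_le_mul
      · nlinarith only [hCc]
      · apply pow_le_pow_left₀ (by positivity)
        exact mul_le_mul_of_nonneg_left (by linarith) (by linarith)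
      · positivity
      · positivity
    have hsq : cW * l ≤ (cW * l) ^ 2 := by nlinarith only [hcl]
    have hWL : W ≤ L := by nlinarith only [hWl, hsq, hbig, hCc, sq_nonneg (cW * l)]
    have hsL : 60 * s ≤ L := by rw [hW] at hWL; exact_mod_cast hWL
    have hW2 : W ^ 2 ≤ (cW * l) ^ 2 := pow_le_pow_left₀ hW0 hWl 2
    have hCW : C * W ^ 2 ≤ L := by
      nlinarith only [hbig, hW2, mul_nonneg (by linarith : (0 : ℝ) ≤ C) (sub_nonneg.2 hW2),
        mul_nonneg (by linarith : (0 : ℝ) ≤ c₃) (sq_nonneg (cW * l))]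
    have hc₃W : c₃ * W ^ 2 ≤ L := by
      nlinarith only [hbig, hW2, mul_nonneg (by linarith : (0 : ℝ) ≤ c₃) (sub_nonneg.2 hW2),
        mul_nonneg (by linarith : (0 : ℝ) ≤ C) (sq_nonneg (cW * l))]
    have hcC : 1 ≤ C * cW := one_le_mul_of_one_le_of_one_le hC hcW1
    have hV2 : (C * cW * W') ^ 2 ≤ l := by
      refine le_trans (pow_le_pow_left₀ (by positivity) ?_ 2) hy₂
      calc C * cW * W' ≤ C * cW * (cV * (t + 1)) :=
            mul_le_mul_of_nonneg_left hWl' (by positivity)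
        _ = _ := by ring
    have hV3 : C * cW ^ 2 * W' ^ 2 ≤ l := by
      refine le_trans ?_ hV2
      have e1 : (C * cW * W') ^ 2 = C ^ 2 * (cW ^ 2 * W' ^ 2) := by ring
      rw [e1, mul_assoc]
      apply mul_le_mul_of_nonneg_right _ (by positivity)
      nlinarith only [hC]
    have hVL : W' ≤ L := by
      have e1 : W' ≤ C * cW * W' := le_mul_of_one_le_left hW0' hcC
      rcases le_or_gt W' 1 with h01 | h01
      · linarith
      · have e2 : C * cW * W' ≤ (C * cW * W') ^ 2 := by nlinarith only [e1, h01]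
        linarith
    have hsL' : 60 * s' ≤ L := by rw [hW'] at hVL; exact_mod_cast hVL
    have hVa : W' ^ a ≤ l := (pow_le_pow_left₀ hW0' hWl' a).trans hy₃
    -- the numbers
    obtain ⟨n, hn⟩ : ∃ n : ℕ, n = ⌈C * (m / Δ)⌉₊ + 2 := ⟨_, rfl⟩
    have hCm : 0 ≤ C * (m / Δ) := by positivity
    have hn1 : C * (m / Δ) + 2 ≤ n := by
      rw [hn]; push_cast
      linarith [Nat.le_ceil (C * (m / Δ))]
    have hn2 : (n : ℝ) ≤ C * (m / Δ) + 3 := by
      rw [hn]; push_cast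
      linarith [(Nat.ceil_lt_add_one hCm).le]
    have hn3 : (n : ℝ) ≤ c₃ * (m + 1) := by
      have e1 : C * (m / Δ) = C / Δ * m := by ring
      rw [e1] at hn2
      rw [hc₃]
      nlinarith only [hn2, hCΔ, hm0]
    have hn0 : (2 : ℝ) ≤ n := by linarith
    obtain ⟨n', hn'⟩ : ∃ n' : ℕ, n' = ⌈C * n⌉₊ + n + 1 := ⟨_, rfl⟩
    have hCn : 0 ≤ C * (n : ℝ) := by positivity
    have hn1' : C * n + n + 1 ≤ n' := by
      rw [hn']; push_cast
      linarith [Nat.le_ceil (C * (n : ℝ))]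
    have hn2' : (n' : ℝ) ≤ (C + 3) * n := by
      rw [hn']; push_cast
      have := (Nat.ceil_lt_add_one hCn).le
      linarith
    have hn3' : (n' : ℝ) ≤ (C + 3) * c₃ * (m + 1) := by
      refine hn2'.trans ?_
      rw [mul_assoc]
      exact mul_le_mul_of_nonneg_left hn3 (by linarith)
    have key := few2_one h2 h3 h4 h5 h6 h7 hR hh hΔ hA hT hC hρ0 (hL₀ L hLL₀).1 (hL₀ L hLL₀).2
      hs hsL hs' hsL' hw₀ hH m n n' (by
        rw [← hW]
        have e1 : (L : ℝ) ^ 2 * (C * W ^ 2 * ρ ^ k) ≤ (L : ℝ) ^ 2 * (L * z ^ k) := by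
          apply mul_le_mul_of_nonneg_left _ (by positivity)
          exact mul_le_mul hCW (pow_le_pow_left₀ hρ0 hρz k) (by positivity) (by positivity)
        have e2 : (L : ℝ) ^ 2 * (L * z ^ k) = (L : ℝ) ^ 3 * z ^ k := by ring
        linarith) (by
        rw [← hW, ← hW']
        have e1 : W ^ 2 * (C * W' ^ 2 * ρ ^ k') ≤ 1 := by
          have e2 : W ^ 2 * (C * W' ^ 2 * ρ ^ k') ≤ (cW * l) ^ 2 * (C * W' ^ 2 * z ^ k') := by
            apply mul_le_mul hW2 _ (by positivity) (by positivity)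
            exact mul_le_mul_of_nonneg_left (pow_le_pow_left₀ hρ0 hρz k') (by positivity)
          have e3 : (cW * l) ^ 2 * (C * W' ^ 2 * z ^ k') =
              (C * cW ^ 2 * W' ^ 2) * (l ^ 2 * z ^ k') := by ring
          have e4 : (C * cW ^ 2 * W' ^ 2) * (l ^ 2 * z ^ k') ≤ l * (l ^ 2 * z ^ k') :=
            mul_le_mul_of_nonneg_right hV3 (by positivity)
          have e5 : l * (l ^ 2 * z ^ k') = l ^ 3 * z ^ k' := by ring
          linarith
        have e6 : (n : ℝ) * W ^ 2 * (C * W' ^ 2 * ρ ^ k') ≤ n := by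
          rw [mul_assoc]
          exact mul_le_of_le_one_right (Nat.cast_nonneg n) e1
        linarith)
    rw [← hW, ← hW'] at key
    refine key.trans ?_
    have f1 : (L : ℝ) ^ 2 + 1 ≤ Real.exp (3 * l) := by
      have e2 : Real.exp (3 * l) = (L : ℝ) ^ 3 := by
        rw [← hexpl, ← Real.exp_nat_mul]
        norm_num
      rw [e2]
      nlinarith only [hL3', mul_nonneg (mul_nonneg hLpos.le hLpos.le) (by linarith : (0:ℝ) ≤ L - 3)]
    have f2 : ((L : ℝ) ^ 2 + 1) ^ n ≤ Real.exp (n * (3 * l)) := by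
      rw [Real.exp_nat_mul]
      exact pow_le_pow_left₀ (by positivity) f1 n
    have f3 : (n : ℝ) * W ^ 2 + 1 ≤ Real.exp (4 * l) := by
      have e2 : Real.exp (4 * l) = (L : ℝ) ^ 4 := by
        rw [← hexpl, ← Real.exp_nat_mul]
        norm_num
      rw [e2]
      have e3 : (n : ℝ) * W ^ 2 ≤ ((L : ℝ) ^ 2 + 1) * L := by
        calc (n : ℝ) * W ^ 2 ≤ (c₃ * (m + 1)) * W ^ 2 :=
              mul_le_mul_of_nonneg_right hn3 (by positivity)
          _ = (m + 1) * (c₃ * W ^ 2) := by ring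
          _ ≤ ((L : ℝ) ^ 2 + 1) * L :=
              mul_le_mul (by linarith) hc₃W (by positivity) (by positivity)
      have e4 : ((L : ℝ) ^ 2 + 1) * L + 1 ≤ (L : ℝ) ^ 4 := by
        have e5 : (3 : ℝ) * (L : ℝ) ^ 3 ≤ (L : ℝ) ^ 4 := by
          rw [pow_succ (L : ℝ) 3, mul_comm]
          exact mul_le_mul_of_nonneg_left hL3' (by positivity)
        have e6 : (L : ℝ) ≤ (L : ℝ) ^ 3 := by nlinarith only [hL3', mul_pos hLpos hLpos]
        have e7 : (1 : ℝ) ≤ (L : ℝ) ^ 3 := by linarith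
        nlinarith only [e5, e6, e7]
      linarith
    have f4 : ((n : ℝ) * W ^ 2 + 1) ^ n' ≤ Real.exp (n' * (4 * l)) := by
      rw [Real.exp_nat_mul]
      exact pow_le_pow_left₀ (by positivity) f3 n'
    have f5 : Real.exp (A₀ * n' * W' ^ a) ≤ Real.exp (A₀ * n' * l) := by
      apply Real.exp_le_exp.2
      exact mul_le_mul_of_nonneg_left hVa (by positivity)
    have f6 : ((L : ℝ) ^ 2 + 1) ^ n * (((n : ℝ) * W ^ 2 + 1) ^ n' *
        Real.exp (A₀ * n' * W' ^ a)) ≤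
        Real.exp (n * (3 * l)) * (Real.exp (n' * (4 * l)) * Real.exp (A₀ * n' * l)) := by
      apply mul_le_mul f2 _ (by positivity) (by positivity)
      exact mul_le_mul f4 f5 (by positivity) (by positivity)
    refine f6.trans ?_
    rw [← Real.exp_add, ← Real.exp_add]
    apply Real.exp_le_exp.2
    have hl0 : 0 ≤ l := by linarith
    have f7 : (n : ℝ) * (3 * l) + (n' * (4 * l) + A₀ * n' * l) =
        (3 * n + (4 + A₀) * n') * l := by ring
    rw [f7]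
    apply mul_le_mul_of_nonneg_right _ hl0
    have f8 : (4 + A₀) * (n' : ℝ) ≤ (4 + A₀) * ((C + 3) * c₃ * (m + 1)) :=
      mul_le_mul_of_nonneg_left hn3' (by linarith)
    have f9 : 3 * (n : ℝ) + (4 + A₀) * n' ≤ B * (m + 1) := by
      rw [hB]
      linarith
    have f10 : 0 ≤ Real.log d * ((m : ℝ) + 1) := by positivity
    linarith
  · -- many levels: the dimension of the space
    have e1 : (numStates hH m : ℝ) ≤ (d : ℝ) ^ (L * L) := by
      have e2 := Pool.Agent.N281.FF.numStates_le hH (m : ℝ)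
      have e3 : Fintype.card (Site L → Fin d) = d ^ (L * L) := by
        rw [Fintype.card_fun, Fintype.card_fin, Fintype.card_prod, ZMod.card]
      rw [e3] at e2
      exact_mod_cast e2
    refine e1.trans ?_
    have hd0 : (0 : ℝ) < d := by exact_mod_cast hd
    have e4 : (d : ℝ) ^ (L * L) = Real.exp ((L : ℝ) ^ 2 * Real.log d) := by
      rw [← Real.exp_log (pow_pos hd0 (L * L)), Real.log_pow]
      push_cast
      congr 1
      ring
    rw [e4]
    apply Real.exp_le_exp.2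
    have e5 : (L : ℝ) ^ 2 * Real.log d ≤ (m + 1) * Real.log d :=
      mul_le_mul_of_nonneg_right (by linarith) hld
    have e6 : 0 ≤ B * ((m : ℝ) + 1) := by positivity
    have e7 : 0 ≤ (Real.log d + B) * ((m : ℝ) + 1) := by positivity
    nlinarith only [e5, e6, mul_le_mul_of_nonneg_left hl1 e7]

end Pool.Agent.N478.FF

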